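import Pool.Agent.TH167.CL.NegH
import Pool.Agent.TH167.TT.Conv9

set_option autoImplicit false

/-!
# Small multiplicities of negative curves of arithmetic genus at least ten

Let `s ≥ 4`. For very general points `P 1, …, P s` of the complex projective plane, every
irreducible curve `C` on the blow-up, of class `e H - ∑ w i E i`, with `C ^ 2 < 0` and arithmetic
genus at least ten, satisfies `#{i : w i = 1} + ∑ (6 - w i)⁺ ≤ max 0 (4 + C ^ 2) ≤ 3`, the sum over
the indices with `w i ≥ 2`. The condition on the genus is `C ^ 2 + C K ≥ 18`.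
-/

namespace Pool.Agent.Results.MP_d3e5c7_ag.GenusAtLeastTen

open MvPolynomial Pool.Agent.TH167 Pool.Agent.TH167.SHDefs

theorem result (r : ℕ) : ∃ Z : ℕ → MvPolynomial (Fin (r + 4) × Fin 2) ℂ, (∀ n, Z n ≠ 0) ∧
    ∀ P : Fin (r + 4) → Fin 2 → ℂ,
      (∀ n, MvPolynomial.eval (fun ij : Fin (r + 4) × Fin 2 => P ij.1 ij.2) (Z n) ≠ 0) →
      ∀ (e : ℕ) (w : Fin (r + 4) → ℕ) (G : MvPolynomial (Fin 3) ℂ),
        Curve P G e w → inter e w e w < 0 → 18 ≤ inter e w e w + interK e w →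
        ((Finset.univ.filter fun i => w i = 1).card : ℤ) +
          ∑ i ∈ Finset.univ.filter (fun i => 2 ≤ w i), ((6 - w i : ℕ) : ℤ) ≤
            max 0 (4 + inter e w e w) := by
  obtain ⟨Z, hZ, h⟩ := SH.exists_fam (Fin (r + 4) × Fin 2)
  refine ⟨Z, hZ, fun P hP e w G hG hneg hg => ?_⟩
  obtain ⟨h1, h2, h3⟩ := SH.curve_iff.1 hG
  rw [SH.inter_eq] at hneg hg ⊢
  rw [SH.interK_eq] at hg
  exact CL.neg_ten ((h _).1 hP) h1 h2 h3 hneg (by linarith)

end Pool.Agent.Results.MP_d3e5c7_ag.GenusAtLeastTen
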